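import Pool.Agent.W96.NI.Basic

set_option autoImplicit false

namespace Pool.Agent.W96.NI

open Set Filter Topology

variable {X : Type*} [NormedAddCommGroup X] [NormedSpace ℂ X]
variable {K : Type*} [TopologicalSpace K] [CompactSpace K] [T2Space K] [Nonempty K]

lemma exists_attain (g : C(K, X)) : ∃ t, ‖g‖ ≤ ‖g t‖ := by
  obtain ⟨t, -, ht⟩ := isCompact_univ.exists_isMaxOn (α := ℝ) (univ_nonempty (α := K))
    (g.continuous.norm.continuousOn)
  refine ⟨t, (ContinuousMap.norm_le _ (norm_nonneg _)).2 (fun s => ht (mem_univ s))⟩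

lemma exists_phase (r : ℂ) : ∃ w : ℂ, ‖w‖ = 1 ∧ w * r = (‖r‖ : ℂ) := by
  by_cases h : r = 0
  · exact ⟨1, by simp, by simp [h]⟩
  · have h1 : (‖r‖ : ℂ) ≠ 0 := by exact_mod_cast norm_ne_zero_iff.2 h
    refine ⟨(‖r‖ : ℂ) / r, ?_, ?_⟩
    · rw [norm_div, Complex.norm_real, norm_norm, div_self (norm_ne_zero_iff.2 h)]
    · field_simp

/-- a pair of `Π(E)` gives large norms -/
lemma big_norm {E : Type*} [NormedAddCommGroup E] [NormedSpace ℂ E] {g a : E} {f : E →L[ℂ] ℂ}
    (hf : ‖f‖ = 1) (hfg : f g = 1) {w : ℂ} {s : ℝ} (hs : 0 < s)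
    (hw : w * f a = (‖f a‖ : ℂ)) : 1 + s * ‖f a‖ ≤ ‖g + ((s : ℂ) * w) • a‖ := by
  have h1 := f.le_opNorm (g + ((s : ℂ) * w) • a)
  rw [hf, one_mul, map_add, map_smul, hfg, smul_eq_mul, mul_assoc, hw] at h1
  have h2 : ‖(1 : ℂ) + (s : ℂ) * (‖f a‖ : ℂ)‖ = 1 + s * ‖f a‖ := by
    have : (1 : ℂ) + (s : ℂ) * (‖f a‖ : ℂ) = ((1 + s * ‖f a‖ : ℝ) : ℂ) := by push_cast; ring
    rw [this, Complex.norm_real, Real.norm_eq_abs, abs_of_nonneg]
    positivity
  linarith

/-- pointwise composition with a multilinear map -/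
noncomputable def lift {k : ℕ} (A : ContinuousMultilinearMap ℂ (fun _ : Fin k => X) X) :
    ContinuousMultilinearMap ℂ (fun _ : Fin k => C(K, X)) C(K, X) :=
  MultilinearMap.mkContinuous
    { toFun := fun g => ⟨fun t => A (fun i => g i t),
        A.cont.comp (continuous_pi (fun i => (g i).continuous))⟩
      map_update_add' := by
        intro _ g i a b
        ext t
        have key : ∀ e : C(K, X), (fun j => (Function.update g i e) j t)
            = Function.update (fun j => g j t) i (e t) := by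
          intro e
          ext j
          by_cases hj : j = i
          · subst hj; simp
          · simp [Function.update_of_ne hj]
        simp only [ContinuousMap.coe_mk, ContinuousMap.coe_add, Pi.add_apply]
        rw [key, key, key]
        exact A.map_update_add _ _ _ _
      map_update_smul' := by
        intro _ g i c a
        ext t
        have key : ∀ e : C(K, X), (fun j => (Function.update g i e) j t)
            = Function.update (fun j => g j t) i (e t) := by
          intro e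
          ext j
          by_cases hj : j = i
          · subst hj; simp
          · simp [Function.update_of_ne hj]
        simp only [ContinuousMap.coe_mk, ContinuousMap.coe_smul, Pi.smul_apply]
        rw [key, key]
        exact A.map_update_smul _ _ _ _ } ‖A‖ (by
      intro g
      refine (ContinuousMap.norm_le _ (by positivity)).2 (fun t => ?_)
      refine (A.le_opNorm _).trans ?_
      gcongr with i _
      exact (g i).norm_coe_le_norm t)

lemma lift_apply {k : ℕ} (A : ContinuousMultilinearMap ℂ (fun _ : Fin k => X) X)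
    (g : Fin k → C(K, X)) (t : K) : lift A g t = A (fun i => g i t) := rfl

theorem NB_of_C [Nontrivial X] {k : ℕ} {c : ℝ} (h : NB k c C(K, X)) : NB k c X := by
  rcases le_or_gt c 0 with hc | hc
  · exact NB_of_nonpos hc
  intro A y hy ε hε
  have hcy : ‖(ContinuousMap.const K y : C(K, X))‖ ≤ 1 :=
    (ContinuousMap.norm_le _ (by norm_num)).2 (fun t => by simpa using hy)
  obtain ⟨g, f, hg, hf, hfg, hlt⟩ := h (lift A) (ContinuousMap.const K y) hcy (ε / 2) (by linarith)
  obtain ⟨w, hw, hwr⟩ := exists_phase (f (lift A (fun _ => g)))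
  obtain ⟨s, hs, hdown⟩ := down A (η := ε / 2) (by linarith)
  have hbig := big_norm hf hfg hs hwr
  obtain ⟨t, ht⟩ := exists_attain (g + ((s : ℂ) * w) • lift A (fun _ => g))
  have h1 : 1 + s * ‖f (lift A (fun _ => g))‖ ≤ ‖g t + ((s : ℂ) * w) • A (fun _ => g t)‖ := by
    have : (g + ((s : ℂ) * w) • lift A (fun _ => g)) t = g t + ((s : ℂ) * w) • A (fun _ => g t) := rfl
    rw [← this]; linarith
  have hgt : ‖g t‖ ≤ 1 := by rw [← hg]; exact g.norm_coe_le_norm t
  obtain ⟨x, f', hx, hf', hfx, hval⟩ := hdown (g t) w _ hgt hw (norm_nonneg _) h1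
  refine ⟨x, f', hx, hf', hfx, ?_⟩
  have h2 : ‖A (fun _ => y)‖ ≤ ‖lift A (fun _ => (ContinuousMap.const K y : C(K, X)))‖ := by
    obtain ⟨t0⟩ := ‹Nonempty K›
    have := (lift A (fun _ => (ContinuousMap.const K y : C(K, X)))).norm_coe_le_norm t0
    simpa [lift_apply] using this
  nlinarith [mul_le_mul_of_nonneg_left h2 hc.le]

theorem NB_C [Nontrivial X] {k : ℕ} {c : ℝ} (h : NB k c X) : NB k c C(K, X) := by
  rcases le_or_gt c 0 with hc | hc
  · haveI : Nontrivial C(K, X) := by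
      obtain ⟨x, hx⟩ := exists_ne (0 : X)
      obtain ⟨t0⟩ := ‹Nonempty K›
      exact ⟨⟨ContinuousMap.const K x, 0, fun hh => hx (by simpa using congrArg (fun g => g t0) hh)⟩⟩
    exact NB_of_nonpos hc
  intro A y hy ε hε
  set P : C(K, X) → C(K, X) := fun g => A (fun _ => g) with hP
  have hPc : Continuous P := A.cont.comp (continuous_pi (fun _ => continuous_id))
  obtain ⟨t0, ht0⟩ := exists_attain (P y)
  have hη : 0 < ε / (2 * (c + 1)) := by positivity
  obtain ⟨δ, hδ, hPδ⟩ := Metric.continuous_iff.1 hPc y (ε / (2 * (c + 1))) hη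
  set U : Set K := {t | ‖y t - y t0‖ < δ} with hU
  have hUo : IsOpen U := isOpen_lt ((y.continuous.sub continuous_const).norm) continuous_const
  have ht0U : t0 ∈ U := by simp [hU, hδ]
  obtain ⟨φ, hφ0, hφ1, hφ⟩ := exists_continuous_zero_one_of_isClosed (hUo.isClosed_compl)
    (isClosed_singleton (x := t0)) (by
      rw [Set.disjoint_singleton_right]; simpa using ht0U)
  have hφt0 : φ t0 = 1 := hφ1 rfl
  let u : C(K, X) := ⟨fun t => ((1 - φ t : ℝ) : ℂ) • y t, by fun_prop⟩
  let Jl : X →ₗ[ℂ] C(K, X) :=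
    { toFun := fun z => ⟨fun t => ((φ t : ℝ) : ℂ) • z, by fun_prop⟩
      map_add' := by intro a b; ext t; simp
      map_smul' := by
        intro a b
        ext t
        show ((φ t : ℝ) : ℂ) • (a • b) = a • (((φ t : ℝ) : ℂ) • b)
        exact smul_comm _ _ _ }
  let J : X →L[ℂ] C(K, X) := Jl.mkContinuous 1 (by
    intro z
    refine (ContinuousMap.norm_le _ (by positivity)).2 (fun t => ?_)
    have : ‖((φ t : ℝ) : ℂ) • z‖ ≤ 1 * ‖z‖ := by
      rw [norm_smul, Complex.norm_real, Real.norm_eq_abs, abs_of_nonneg (hφ t).1]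
      exact mul_le_mul_of_nonneg_right (hφ t).2 (norm_nonneg _)
    exact this)
  have hJ : ∀ z t, J z t = ((φ t : ℝ) : ℂ) • z := fun z t => rfl
  have hu : ∀ t, u t = ((1 - φ t : ℝ) : ℂ) • y t := fun t => rfl
  have hyt : ∀ t, ‖y t‖ ≤ 1 := fun t => (y.norm_coe_le_norm t).trans hy
  have hball : ∀ (μ : ℂ) (z : X), ‖μ‖ ≤ 1 → ‖z‖ ≤ 1 → ‖μ • u + J z‖ ≤ 1 := by
    intro μ z hμ hz
    refine (ContinuousMap.norm_le _ (by norm_num)).2 (fun t => ?_)
    have : (μ • u + J z) t = μ • (((1 - φ t : ℝ) : ℂ) • y t) + ((φ t : ℝ) : ℂ) • z := rfl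
    rw [this]
    have h1 : ‖μ • (((1 - φ t : ℝ) : ℂ) • y t)‖ ≤ 1 - φ t := by
      rw [norm_smul, norm_smul, Complex.norm_real, Real.norm_eq_abs,
        abs_of_nonneg (by linarith [(hφ t).2])]
      have a1 : 0 ≤ 1 - φ t := by linarith [(hφ t).2]
      have a2 : (1 - φ t) * ‖y t‖ ≤ (1 - φ t) := by nlinarith [hyt t]
      have a3 : 0 ≤ (1 - φ t) * ‖y t‖ := mul_nonneg a1 (norm_nonneg _)
      nlinarith
    have h2 : ‖((φ t : ℝ) : ℂ) • z‖ ≤ φ t := by
      rw [norm_smul, Complex.norm_real, Real.norm_eq_abs, abs_of_nonneg (hφ t).1]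
      nlinarith [(hφ t).1]
    calc _ ≤ _ := norm_add_le _ _
      _ ≤ 1 := by linarith
  obtain ⟨x, f, hx, hf, hfx, hlt⟩ := up (E := C(K, X)) hc.le h A (ContinuousMap.evalCLM ℂ t0) J u
    (fun e => e.norm_coe_le_norm t0) (fun z => by simp [hJ, hφt0]) (by simp [hu, hφt0]) hball
    (y t0) (hyt t0) (ε := ε / 2) (by linarith)
  refine ⟨x, f, hx, hf, hfx, ?_⟩
  have hclose : dist (u + J (y t0)) y < δ := by
    rw [dist_eq_norm]
    refine (ContinuousMap.norm_lt_iff _ hδ).2 (fun t => ?_)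
    have e1 : (u + J (y t0) - y) t = ((φ t : ℝ) : ℂ) • (y t0 - y t) := by
      have : (u + J (y t0) - y) t = ((1 - φ t : ℝ) : ℂ) • y t + ((φ t : ℝ) : ℂ) • y t0 - y t := rfl
      rw [this]
      push_cast
      rw [sub_smul, one_smul, smul_sub]
      abel
    rw [e1, norm_smul, Complex.norm_real, Real.norm_eq_abs, abs_of_nonneg (hφ t).1]
    by_cases htU : t ∈ U
    · have : ‖y t0 - y t‖ < δ := by rw [norm_sub_rev]; exact htU
      nlinarith [(hφ t).1, (hφ t).2, norm_nonneg (y t0 - y t)]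
    · have : φ t = 0 := hφ0 htU
      rw [this, zero_mul]; exact hδ
  have h3 : ‖P (u + J (y t0)) - P y‖ < ε / (2 * (c + 1)) := by
    rw [← dist_eq_norm]; exact hPδ _ hclose
  have h4 : ‖P y‖ - ε / (2 * (c + 1)) ≤ ‖(P (u + J (y t0))) t0‖ := by
    have e1 := (P (u + J (y t0)) - P y).norm_coe_le_norm t0
    have e2 : (P (u + J (y t0)) - P y) t0 = P (u + J (y t0)) t0 - P y t0 := rfl
    rw [e2] at e1
    have e3 := norm_sub_norm_le (P y t0) (P (u + J (y t0)) t0)
    rw [norm_sub_rev] at e3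
    linarith
  have h5 : c * (ε / (2 * (c + 1))) ≤ ε / 2 := by
    rw [mul_div_assoc', div_le_div_iff₀ (by positivity) (by norm_num)]
    nlinarith
  have h6 := mul_le_mul_of_nonneg_left h4 hc.le
  have h7 : (ContinuousMap.evalCLM ℂ t0) (A fun _ => u + J (y t0)) = (P (u + J (y t0))) t0 := rfl
  rw [h7] at hlt
  have h8 : c * ‖A (fun _ => y)‖ = c * ‖P y‖ := rfl
  rw [h8]
  nlinarith

end Pool.Agent.W96.NI
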