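import Mathlib

set_option autoImplicit false

namespace Pool.Agent.W96.NI

open Set Filter Topology

/-- the numerical-index bound with constant `c` and order `k` -/
def NB (k : ℕ) (c : ℝ) (X : Type*) [NormedAddCommGroup X] [NormedSpace ℂ X] : Prop :=
  ∀ (A : ContinuousMultilinearMap ℂ (fun _ : Fin k => X) X) (y : X), ‖y‖ ≤ 1 →
      ∀ ε : ℝ, 0 < ε →
        ∃ (x : X) (f : X →L[ℂ] ℂ), ‖x‖ = 1 ∧ ‖f‖ = 1 ∧ f x = 1 ∧
          c * ‖A (fun _ => y)‖ - ε < ‖f (A (fun _ => x))‖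

section
variable {X : Type*} [NormedAddCommGroup X] [NormedSpace ℂ X]

lemma exists_unit [Nontrivial X] : ∃ x : X, ‖x‖ = 1 := by
  obtain ⟨v, hv⟩ := exists_ne (0 : X)
  refine ⟨((‖v‖⁻¹ : ℝ) : ℂ) • v, ?_⟩
  have : ‖v‖ ≠ 0 := norm_ne_zero_iff.2 hv
  rw [norm_smul]
  simp [this]

lemma exists_pair {x : X} (hx : ‖x‖ = 1) : ∃ f : X →L[ℂ] ℂ, ‖f‖ = 1 ∧ f x = 1 := by
  have hx0 : ‖x‖ ≠ 0 := by rw [hx]; norm_num
  obtain ⟨g, hg1, hg2⟩ := exists_dual_vector ℂ x hx0
  exact ⟨g, hg1, by rw [hg2, hx]; simp⟩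

/-- Lumer type lemma: from norms to numerical range -/
lemma down {k : ℕ} (A : ContinuousMultilinearMap ℂ (fun _ : Fin k => X) X) {η : ℝ} (hη : 0 < η) :
    ∃ s : ℝ, 0 < s ∧ ∀ (x : X) (w : ℂ) (ρ : ℝ), ‖x‖ ≤ 1 → ‖w‖ = 1 → 0 ≤ ρ →
      1 + s * ρ ≤ ‖x + ((s : ℂ) * w) • A (fun _ => x)‖ →
      ∃ (y : X) (f : X →L[ℂ] ℂ), ‖y‖ = 1 ∧ ‖f‖ = 1 ∧ f y = 1 ∧ ρ - η < ‖f (A (fun _ => y))‖ := by
  set M := ‖A‖ with hM
  have hM0 : 0 ≤ M := norm_nonneg _
  refine ⟨η / (2 * (k * M * M) + 1), by positivity, ?_⟩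
  set s := η / (2 * (k * M * M) + 1) with hs
  have hs0 : 0 < s := by rw [hs]; positivity
  intro x w ρ hx hw hρ hN
  set v := x + ((s : ℂ) * w) • A (fun _ => x) with hv
  set N := ‖v‖ with hNdef
  have hN1 : 1 ≤ N := le_trans (by nlinarith [mul_nonneg hs0.le hρ]) hN
  have hN0 : 0 < N := by linarith
  have hv0 : ‖v‖ ≠ 0 := hN0.ne'
  obtain ⟨f, hf1, hf2⟩ := exists_dual_vector ℂ v hv0
  have hsw : ‖(s : ℂ) * w‖ = s := by rw [norm_mul, hw, Complex.norm_real]; simp [abs_of_pos hs0]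
  have hAx : ‖A (fun _ => x)‖ ≤ M := by
    have h := A.le_opNorm (fun _ => x)
    have : ∏ i : Fin k, ‖x‖ ≤ 1 := Finset.prod_le_one (fun _ _ => norm_nonneg _) (fun _ _ => hx)
    nlinarith
  refine ⟨((N⁻¹ : ℝ) : ℂ) • v, f, ?_, hf1, ?_, ?_⟩
  · rw [norm_smul]; simp [abs_of_pos hN0, hN0.ne', ← hNdef]
  · rw [map_smul, hf2]
    simp only [smul_eq_mul]
    have hNC : (N : ℂ) ≠ 0 := by exact_mod_cast hN0.ne'
    rw [← hNdef]
    push_cast
    exact inv_mul_cancel₀ hNC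
  · set y := ((N⁻¹ : ℝ) : ℂ) • v with hy
    have hy1 : ‖y‖ = 1 := by rw [hy, norm_smul]; simp [abs_of_pos hN0, hN0.ne', ← hNdef]
    -- lower bound for f (A x)
    have h1 : ρ ≤ ‖f (A (fun _ => x))‖ := by
      have e1 : (N : ℂ) = f x + ((s : ℂ) * w) * f (A (fun _ => x)) := by
        have h0 : f v = (N : ℂ) := hf2
        rw [← h0, hv, map_add, map_smul, smul_eq_mul]
      have e2 : N ≤ ‖f x‖ + s * ‖f (A (fun _ => x))‖ := by
        have : ‖(N : ℂ)‖ = N := by rw [Complex.norm_real]; simp [abs_of_pos hN0]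
        rw [← this, e1]
        refine (norm_add_le _ _).trans ?_
        rw [norm_mul ((s:ℂ) * w), hsw]
      have e3 : ‖f x‖ ≤ 1 := by
        have := f.le_opNorm x
        rw [hf1] at this; linarith
      have e4 : s * ρ ≤ s * ‖f (A (fun _ => x))‖ := by linarith
      exact le_of_mul_le_mul_left e4 hs0
    have hNle : N ≤ 1 + s * M := by
      calc N ≤ ‖x‖ + ‖((s : ℂ) * w) • A (fun _ => x)‖ := norm_add_le _ _
        _ ≤ 1 + s * M := by
          rw [norm_smul, hsw]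
          nlinarith
    have h2 : ‖x - y‖ ≤ 2 * (s * M) := by
      have e1 : ‖x - v‖ ≤ s * M := by
        rw [hv, sub_add_cancel_left, norm_neg, norm_smul, hsw]
        nlinarith
      have e2 : ‖v - y‖ ≤ s * M := by
        have : v - y = ((1 - N⁻¹ : ℝ) : ℂ) • v := by
          rw [hy]; push_cast; rw [sub_smul, one_smul]
        rw [this, norm_smul, Complex.norm_real, Real.norm_eq_abs, abs_of_nonneg, ← hNdef]
        · have : (1 - N⁻¹) * N = N - 1 := by field_simp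
          rw [this]; linarith
        · have : N⁻¹ ≤ 1 := inv_le_one_of_one_le₀ hN1
          linarith
      have := norm_sub_le_norm_sub_add_norm_sub x v y
      linarith
    have h3 : ‖A (fun _ => x) - A (fun _ => y)‖ ≤ M * k * (2 * (s * M)) := by
      have := A.norm_image_sub_le (fun _ => x) (fun _ => y)
      refine this.trans ?_
      have a1 : ‖(fun _ : Fin k => x)‖ ≤ 1 := (pi_norm_le_iff_of_nonneg (by norm_num)).2 (fun _ => hx)
      have a2 : ‖(fun _ : Fin k => y)‖ ≤ 1 := (pi_norm_le_iff_of_nonneg (by norm_num)).2 (fun _ => hy1.le)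
      have a3 : ‖(fun _ : Fin k => x) - (fun _ : Fin k => y)‖ ≤ 2 * (s * M) := by
        refine (pi_norm_le_iff_of_nonneg (by positivity)).2 (fun _ => ?_)
        simpa using h2
      have a4 : max ‖(fun _ : Fin k => x)‖ ‖(fun _ : Fin k => y)‖ ^ (Fintype.card (Fin k) - 1) ≤ 1 :=
        pow_le_one₀ (le_max_of_le_left (norm_nonneg _)) (max_le a1 a2)
      rw [Fintype.card_fin] at *
      have a5 : 0 ≤ M * k := by positivity
      calc ‖A‖ * k * max ‖(fun _ : Fin k => x)‖ ‖(fun _ : Fin k => y)‖ ^ (k - 1) *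
            ‖(fun _ : Fin k => x) - (fun _ : Fin k => y)‖
          ≤ ‖A‖ * k * 1 * (2 * (s * M)) := by
            gcongr
        _ = M * k * (2 * (s * M)) := by rw [mul_one]
    have h4 : ‖f (A (fun _ => x))‖ - ‖f (A (fun _ => y))‖ ≤ M * k * (2 * (s * M)) := by
      have e1 : ‖f (A (fun _ => x)) - f (A (fun _ => y))‖ ≤ ‖A (fun _ => x) - A (fun _ => y)‖ := by
        rw [← map_sub]
        have := f.le_opNorm (A (fun _ => x) - A (fun _ => y))
        rw [hf1, one_mul] at this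
        exact this
      have e2 := norm_sub_norm_le (f (A (fun _ => x))) (f (A (fun _ => y)))
      linarith
    have h5 : M * k * (2 * (s * M)) < η := by
      have : M * k * (2 * (s * M)) = s * (2 * (k * M * M)) := by ring
      rw [this, hs, div_mul_eq_mul_div, div_lt_iff₀ (by positivity)]
      nlinarith
    linarith

/-- transfer from a coordinate `X` of `E` to `E`. -/
lemma up [Nontrivial X] {E : Type*} [NormedAddCommGroup E] [NormedSpace ℂ E] {k : ℕ} {c : ℝ}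
    (hc : 0 ≤ c)
    (h : NB k c X) (A : ContinuousMultilinearMap ℂ (fun _ : Fin k => E) E)
    (ev : E →L[ℂ] X) (J : X →L[ℂ] E) (u : E) (hev : ∀ e, ‖ev e‖ ≤ ‖e‖)
    (hJ : ∀ z, ev (J z) = z) (hu : ev u = 0)
    (hball : ∀ (μ : ℂ) (z : X), ‖μ‖ ≤ 1 → ‖z‖ ≤ 1 → ‖μ • u + J z‖ ≤ 1)
    (x₀ : X) (hx₀ : ‖x₀‖ ≤ 1) {ε : ℝ} (hε : 0 < ε) :
    ∃ (x : E) (f : E →L[ℂ] ℂ), ‖x‖ = 1 ∧ ‖f‖ = 1 ∧ f x = 1 ∧
      c * ‖ev (A (fun _ => u + J x₀))‖ - ε < ‖f (A (fun _ => x))‖ := by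
  -- a unit vector with at least as large a value
  obtain ⟨e, he1, r, hr, hxe⟩ : ∃ e : X, ‖e‖ = 1 ∧ ∃ r : ℂ, ‖r‖ ≤ 1 ∧ x₀ = r • e := by
    by_cases h0 : x₀ = 0
    · obtain ⟨e, he⟩ := exists_unit (X := X)
      exact ⟨e, he, 0, by simp, by simp [h0]⟩
    · have hn : ‖x₀‖ ≠ 0 := norm_ne_zero_iff.2 h0
      refine ⟨((‖x₀‖⁻¹ : ℝ) : ℂ) • x₀, by rw [norm_smul]; simp [hn], (‖x₀‖ : ℂ), by simpa using hx₀, ?_⟩
      rw [smul_smul]
      push_cast
      rw [mul_inv_cancel₀ (by exact_mod_cast hn), one_smul]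
  set q : ℂ → X := fun l => ev (A (fun _ => u + J (l • e))) with hq
  have hqd : Differentiable ℂ q := by
    intro l
    refine ev.differentiableAt.comp l ?_
    have h1 : DifferentiableAt ℂ (fun l : ℂ => (fun _ : Fin k => u + J (l • e))) l := by
      refine differentiableAt_pi.2 (fun _ => ?_)
      refine (differentiableAt_const _).add ?_
      exact J.differentiableAt.comp l (differentiableAt_id.smul_const e)
    exact (A.hasFDerivAt (x := (fun _ : Fin k => u + J (l • e)))).differentiableAt.comp l h1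
  obtain ⟨l, hl, hlq⟩ : ∃ l : ℂ, ‖l‖ = 1 ∧ ‖q r‖ ≤ ‖q l‖ := by
    obtain ⟨l, hl1, hl2⟩ := Complex.exists_mem_frontier_isMaxOn_norm (f := q)
      (Metric.isBounded_ball (x := (0 : ℂ)) (r := 1)) ⟨0, by simp⟩ hqd.diffContOnCl
    refine ⟨l, ?_, ?_⟩
    · rw [frontier_ball _ (by norm_num)] at hl1
      simpa using hl1
    · have : r ∈ closure (Metric.ball (0 : ℂ) 1) := by
        rw [closure_ball _ (by norm_num)]; simpa using hr
      exact hl2 this
  set z₁ := l • e with hz₁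
  have hz1 : ‖z₁‖ = 1 := by rw [hz₁, norm_smul, hl, he1, one_mul]
  obtain ⟨g, hg1, hg2⟩ := exists_pair hz1
  let T : X →L[ℂ] E := g.smulRight u + J
  have hT : ∀ z, T z = g z • u + J z := fun z => rfl
  let B : ContinuousMultilinearMap ℂ (fun _ : Fin k => X) X :=
    ev.compContinuousMultilinearMap (A.compContinuousLinearMap (fun _ => T))
  have hB : ∀ z, B (fun _ => z) = ev (A (fun _ => T z)) := fun z => rfl
  obtain ⟨x, f, hx, hf, hfx, hlt⟩ := h B z₁ hz1.le ε hε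
  have hTx : ‖T x‖ ≤ 1 := by
    rw [hT]
    refine hball _ _ ?_ hx.le
    have := g.le_opNorm x
    rw [hg1, hx] at this; simpa using this
  have hevT : ev (T x) = x := by rw [hT, map_add, map_smul, hu, hJ]; simp
  have hfe : ‖f.comp ev‖ ≤ 1 := by
    refine ContinuousLinearMap.opNorm_le_bound _ (by norm_num) (fun e => ?_)
    have h1 := f.le_opNorm (ev e)
    rw [hf, one_mul] at h1
    simpa using h1.trans (hev e)
  have hval : (f.comp ev) (T x) = 1 := by simp [hevT, hfx]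
  have hle := (f.comp ev).le_opNorm (T x)
  rw [hval, norm_one] at hle
  have hTx1 : ‖T x‖ = 1 := by
    refine le_antisymm hTx ?_
    nlinarith [norm_nonneg (T x), norm_nonneg (f.comp ev)]
  have hfe1 : ‖f.comp ev‖ = 1 := by
    refine le_antisymm hfe ?_
    rw [hTx1, mul_one] at hle; exact hle
  refine ⟨T x, f.comp ev, hTx1, hfe1, hval, ?_⟩
  have e1 : B (fun _ => z₁) = q l := by
    rw [hB, hT, hg2, one_smul]
  have e2 : ev (A (fun _ => u + J x₀)) = q r := by rw [hxe]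
  rw [e2]
  have e3 : f (B (fun _ => x)) = (f.comp ev) (A (fun _ => T x)) := by rw [hB]; rfl
  rw [← e3]
  rw [e1] at hlt
  nlinarith [mul_le_mul_of_nonneg_left hlq hc]

lemma NB_of_nonpos [Nontrivial X] {k : ℕ} {c : ℝ} (hc : c ≤ 0) : NB k c X := by
  intro A y hy ε hε
  obtain ⟨x, hx⟩ := exists_unit (X := X)
  obtain ⟨f, hf, hfx⟩ := exists_pair hx
  refine ⟨x, f, hx, hf, hfx, ?_⟩
  nlinarith [norm_nonneg (A (fun _ => y)), norm_nonneg (f (A (fun _ => x)))]

end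

end Pool.Agent.W96.NI
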