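import Pool.Agent.W96.NI.CK

set_option autoImplicit false

namespace Pool.Agent.W96.NI

open Set Filter Topology
open scoped ENNReal Pointwise

/-- the `k`-th polynomial numerical index -/
noncomputable def idx (k : ℕ) (E : Type*) [NormedAddCommGroup E] [NormedSpace ℂ E] : ℝ :=
  sInf {r : ℝ | ∃ A : ContinuousMultilinearMap ℂ (fun _ : Fin k => E) E,
            sSup {s : ℝ | ∃ x : E, ‖x‖ ≤ 1 ∧ s = ‖A (fun _ => x)‖} = 1 ∧
            r = sSup {s : ℝ | ∃ (x : E) (φ : E →L[ℂ] ℂ), ‖x‖ = 1 ∧ ‖φ‖ = 1 ∧ φ x = 1 ∧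
                  s = ‖φ (A (fun _ => x))‖}}

section idx
variable {E : Type*} [NormedAddCommGroup E] [NormedSpace ℂ E] {k : ℕ}

lemma norm_A_le (A : ContinuousMultilinearMap ℂ (fun _ : Fin k => E) E) {x : E} (hx : ‖x‖ ≤ 1) :
    ‖A (fun _ => x)‖ ≤ ‖A‖ := by
  have h := A.le_opNorm (fun _ => x)
  have h1 : ∏ i : Fin k, ‖x‖ ≤ 1 := Finset.prod_le_one (fun _ _ => norm_nonneg _) (fun _ _ => hx)
  nlinarith [norm_nonneg A]

lemma bdd1 (A : ContinuousMultilinearMap ℂ (fun _ : Fin k => E) E) :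
    BddAbove {s : ℝ | ∃ x : E, ‖x‖ ≤ 1 ∧ s = ‖A (fun _ => x)‖} := by
  refine ⟨‖A‖, ?_⟩
  rintro _ ⟨x, hx, rfl⟩
  exact norm_A_le A hx

lemma bdd2 (A : ContinuousMultilinearMap ℂ (fun _ : Fin k => E) E) :
    BddAbove {s : ℝ | ∃ (x : E) (φ : E →L[ℂ] ℂ), ‖x‖ = 1 ∧ ‖φ‖ = 1 ∧ φ x = 1 ∧
                  s = ‖φ (A (fun _ => x))‖} := by
  refine ⟨‖A‖, ?_⟩
  rintro _ ⟨x, φ, hx, hφ, -, rfl⟩
  have := φ.le_opNorm (A (fun _ => x))
  rw [hφ, one_mul] at this
  exact this.trans (norm_A_le A hx.le)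

lemma idx_bddBelow : BddBelow {r : ℝ | ∃ A : ContinuousMultilinearMap ℂ (fun _ : Fin k => E) E,
            sSup {s : ℝ | ∃ x : E, ‖x‖ ≤ 1 ∧ s = ‖A (fun _ => x)‖} = 1 ∧
            r = sSup {s : ℝ | ∃ (x : E) (φ : E →L[ℂ] ℂ), ‖x‖ = 1 ∧ ‖φ‖ = 1 ∧ φ x = 1 ∧
                  s = ‖φ (A (fun _ => x))‖}} := by
  refine ⟨0, ?_⟩
  rintro _ ⟨A, -, rfl⟩
  refine Real.sSup_nonneg ?_
  rintro _ ⟨x, φ, -, -, -, rfl⟩
  exact norm_nonneg _

lemma idx_nonneg : 0 ≤ idx k E := by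
  refine Real.sInf_nonneg ?_
  rintro _ ⟨A, -, rfl⟩
  refine Real.sSup_nonneg ?_
  rintro _ ⟨x, φ, -, -, -, rfl⟩
  exact norm_nonneg _

/-- a norm one polynomial -/
lemma exists_norm_one [Nontrivial E] (hk : 1 ≤ k) :
    ∃ A : ContinuousMultilinearMap ℂ (fun _ : Fin k => E) E,
      sSup {s : ℝ | ∃ x : E, ‖x‖ ≤ 1 ∧ s = ‖A (fun _ => x)‖} = 1 := by
  obtain ⟨e, he⟩ := exists_unit (X := E)
  obtain ⟨g, hg, hge⟩ := exists_pair he
  let A : ContinuousMultilinearMap ℂ (fun _ : Fin k => E) E :=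
    ((ContinuousMultilinearMap.mkPiAlgebra ℂ (Fin k) ℂ).compContinuousLinearMap
      (fun _ => g)).smulRight e
  have hA : ∀ x, A (fun _ => x) = (g x) ^ k • e := by
    intro x
    simp [A, ContinuousMultilinearMap.smulRight_apply]
  refine ⟨A, le_antisymm ?_ ?_⟩
  · refine Real.sSup_le ?_ (by norm_num)
    rintro _ ⟨x, hx, rfl⟩
    rw [hA, norm_smul, he, mul_one, norm_pow]
    refine pow_le_one₀ (norm_nonneg _) ?_
    have := g.le_opNorm x
    rw [hg, one_mul] at this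
    exact this.trans hx
  · refine le_csSup (bdd1 A) ⟨e, he.le, ?_⟩
    rw [hA, hge, one_pow, one_smul, he]

theorem le_idx_iff [Nontrivial E] (hk : 1 ≤ k) (c : ℝ) : c ≤ idx k E ↔ NB k c E := by
  constructor
  · intro h
    rcases le_or_gt c 0 with hc | hc
    · exact NB_of_nonpos hc
    intro A y hy ε hε
    set M := sSup {s : ℝ | ∃ x : E, ‖x‖ ≤ 1 ∧ s = ‖A (fun _ => x)‖} with hM
    have hyM : ‖A (fun _ => y)‖ ≤ M := le_csSup (bdd1 A) ⟨y, hy, rfl⟩
    have hM0 : 0 ≤ M := le_trans (norm_nonneg _) hyM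
    obtain ⟨e, he⟩ := exists_unit (X := E)
    obtain ⟨g, hg, hge⟩ := exists_pair he
    rcases hM0.eq_or_lt with h0 | hMpos
    · refine ⟨e, g, he, hg, hge, ?_⟩
      have : ‖A (fun _ => y)‖ = 0 := le_antisymm (by linarith) (norm_nonneg _)
      rw [this]
      have := norm_nonneg (g (A (fun _ => e)))
      linarith
    · -- normalise
      let A' : ContinuousMultilinearMap ℂ (fun _ : Fin k => E) E := ((M⁻¹ : ℝ) : ℂ) • A
      have hA' : ∀ x, A' x = ((M⁻¹ : ℝ) : ℂ) • A x := fun x => rfl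
      have hMi : 0 < M⁻¹ := inv_pos.2 hMpos
      have hnorm : ∀ x : Fin k → E, ‖A' x‖ = M⁻¹ * ‖A x‖ := by
        intro x
        rw [hA', norm_smul, Complex.norm_real, Real.norm_eq_abs, abs_of_pos hMi]
      have h1 : sSup {s : ℝ | ∃ x : E, ‖x‖ ≤ 1 ∧ s = ‖A' (fun _ => x)‖} = 1 := by
        have hset : {s : ℝ | ∃ x : E, ‖x‖ ≤ 1 ∧ s = ‖A' (fun _ => x)‖} =
            M⁻¹ • {s : ℝ | ∃ x : E, ‖x‖ ≤ 1 ∧ s = ‖A (fun _ => x)‖} := by
          ext s
          simp only [Set.mem_setOf_eq, Set.mem_smul_set, smul_eq_mul]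
          constructor
          · rintro ⟨x, hx, rfl⟩
            exact ⟨_, ⟨x, hx, rfl⟩, (hnorm _).symm⟩
          · rintro ⟨_, ⟨x, hx, rfl⟩, rfl⟩
            exact ⟨x, hx, (hnorm _).symm⟩
        rw [hset, Real.sSup_smul_of_nonneg hMi.le, ← hM, smul_eq_mul, inv_mul_cancel₀ hMpos.ne']
      have h2 := h.trans (csInf_le idx_bddBelow ⟨A', h1, rfl⟩)
      have h3 : c - ε / M < sSup {s : ℝ | ∃ (x : E) (φ : E →L[ℂ] ℂ), ‖x‖ = 1 ∧ ‖φ‖ = 1 ∧ φ x = 1 ∧
                  s = ‖φ (A' (fun _ => x))‖} := by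
        have : 0 < ε / M := by positivity
        linarith
      have hne : {s : ℝ | ∃ (x : E) (φ : E →L[ℂ] ℂ), ‖x‖ = 1 ∧ ‖φ‖ = 1 ∧ φ x = 1 ∧
                  s = ‖φ (A' (fun _ => x))‖}.Nonempty := ⟨_, e, g, he, hg, hge, rfl⟩
      obtain ⟨_, ⟨x, f, hx, hf, hfx, rfl⟩, hlt⟩ := exists_lt_of_lt_csSup hne h3
      refine ⟨x, f, hx, hf, hfx, ?_⟩
      have h4 : ‖f (A' (fun _ => x))‖ = M⁻¹ * ‖f (A (fun _ => x))‖ := by
        rw [hA', map_smul, norm_smul, Complex.norm_real, Real.norm_eq_abs, abs_of_pos hMi]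
      rw [h4] at hlt
      have h5 : M * (c - ε / M) < M * (M⁻¹ * ‖f (A (fun _ => x))‖) := by
        exact mul_lt_mul_of_pos_left hlt hMpos
      rw [mul_inv_cancel_left₀ hMpos.ne', mul_sub, mul_div_cancel₀ _ hMpos.ne'] at h5
      nlinarith
  · intro h
    refine le_csInf ?_ ?_
    · obtain ⟨A, hA⟩ := exists_norm_one (E := E) hk
      exact ⟨_, A, hA, rfl⟩
    · rintro _ ⟨A, hA, rfl⟩
      rcases le_or_gt c 0 with hc | hc
      · refine hc.trans (Real.sSup_nonneg ?_)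
        rintro _ ⟨x, φ, -, -, -, rfl⟩
        exact norm_nonneg _
      refine le_of_forall_pos_le_add (fun ε hε => ?_)
      have hlt : 1 - ε / (2 * c) < sSup {s : ℝ | ∃ x : E, ‖x‖ ≤ 1 ∧ s = ‖A (fun _ => x)‖} := by
        rw [hA]
        have : 0 < ε / (2 * c) := by positivity
        linarith
      have hne : {s : ℝ | ∃ x : E, ‖x‖ ≤ 1 ∧ s = ‖A (fun _ => x)‖}.Nonempty :=
        ⟨_, (0 : E), by simp, rfl⟩
      obtain ⟨_, ⟨y, hy, rfl⟩, hy2⟩ := exists_lt_of_lt_csSup hne hlt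
      obtain ⟨x, f, hx, hf, hfx, hlt2⟩ := h A y hy (ε / 2) (by linarith)
      have h1 := le_csSup (bdd2 A) ⟨x, f, hx, hf, hfx, rfl⟩
      have h2 : c * (1 - ε / (2 * c)) = c - ε / 2 := by field_simp
      have h3 := mul_lt_mul_of_pos_left hy2 hc
      rw [h2] at h3
      linarith
end idx

section sum
variable {Λ : Type*} [Nonempty Λ] {X : Λ → Type*} [∀ i, NormedAddCommGroup (X i)]
  [∀ i, NormedSpace ℂ (X i)] [∀ i, Nontrivial (X i)]
  {E : Type*} [NormedAddCommGroup E] [NormedSpace ℂ E]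

theorem NB_sum_iff (ev : ∀ i, E →L[ℂ] X i) (J : ∀ i, X i →L[ℂ] E)
    (h1 : ∀ i e, ‖ev i e‖ ≤ ‖e‖) (h2 : ∀ e (C : ℝ), 0 ≤ C → (∀ i, ‖ev i e‖ ≤ C) → ‖e‖ ≤ C)
    (h3 : ∀ i z, ev i (J i z) = z) (h4 : ∀ i j z, j ≠ i → ev j (J i z) = 0) (k : ℕ) (c : ℝ) :
    NB k c E ↔ ∀ i, NB k c (X i) := by
  have hJn : ∀ i z, ‖J i z‖ ≤ ‖z‖ := by
    intro i z
    refine h2 _ _ (norm_nonneg _) (fun j => ?_)
    by_cases hj : j = i
    · subst hj; rw [h3]
    · rw [h4 i j z hj]; simp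
  constructor
  · intro h i
    rcases le_or_gt c 0 with hc | hc
    · exact NB_of_nonpos hc
    intro A y hy ε hε
    let A' : ContinuousMultilinearMap ℂ (fun _ : Fin k => E) E :=
      (J i).compContinuousMultilinearMap (A.compContinuousLinearMap (fun _ => ev i))
    have hA' : ∀ e, A' (fun _ => e) = J i (A (fun _ => ev i e)) := fun e => rfl
    obtain ⟨g, f, hg, hf, hfg, hlt⟩ := h A' (J i y) ((hJn i y).trans hy) (ε / 2) (by linarith)
    have hval : ‖A (fun _ => y)‖ ≤ ‖A' (fun _ => J i y)‖ := by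
      rw [hA', h3]
      have := h1 i (J i (A (fun _ => y)))
      rwa [h3] at this
    have hcv := mul_le_mul_of_nonneg_left hval hc.le
    by_cases hρ : ‖f (A' (fun _ => g))‖ = 0
    · obtain ⟨e, he⟩ := exists_unit (X := X i)
      obtain ⟨φ, hφ, hφe⟩ := exists_pair he
      refine ⟨e, φ, he, hφ, hφe, ?_⟩
      have := norm_nonneg (φ (A (fun _ => e)))
      linarith
    · have hρ0 : 0 < ‖f (A' (fun _ => g))‖ := lt_of_le_of_ne (norm_nonneg _) (Ne.symm hρ)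
      obtain ⟨w, hw, hwr⟩ := exists_phase (f (A' (fun _ => g)))
      obtain ⟨s, hs, hdown⟩ := down A (η := ε / 2) (by linarith)
      have hbig := big_norm hf hfg hs hwr
      have hcoord : 1 + s * ‖f (A' (fun _ => g))‖ ≤
          ‖ev i g + ((s : ℂ) * w) • A (fun _ => ev i g)‖ := by
        by_contra hcon
        push_neg at hcon
        have hlt1 : ‖g + ((s : ℂ) * w) • A' (fun _ => g)‖ ≤
            max 1 ‖ev i g + ((s : ℂ) * w) • A (fun _ => ev i g)‖ := by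
          refine h2 _ _ (le_max_of_le_left (by norm_num)) (fun j => ?_)
          rw [map_add, map_smul, hA']
          by_cases hj : j = i
          · subst hj
            rw [h3]
            exact le_max_right _ _
          · rw [h4 i j _ hj, smul_zero, add_zero]
            refine le_max_of_le_left ?_
            rw [← hg]; exact h1 j g
        have hlt2 : max 1 ‖ev i g + ((s : ℂ) * w) • A (fun _ => ev i g)‖ <
            1 + s * ‖f (A' (fun _ => g))‖ := by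
          refine max_lt ?_ hcon
          nlinarith [mul_pos hs hρ0]
        linarith
      obtain ⟨x, f', hx, hf', hfx, hv⟩ := hdown (ev i g) w _ (by rw [← hg]; exact h1 i g) hw
        (norm_nonneg _) hcoord
      exact ⟨x, f', hx, hf', hfx, by linarith⟩
  · intro h
    rcases le_or_gt c 0 with hc | hc
    · have : Nontrivial E := by
        obtain ⟨i⟩ := ‹Nonempty Λ›
        obtain ⟨x, hx⟩ := exists_ne (0 : X i)
        refine ⟨⟨J i x, 0, fun hh => hx ?_⟩⟩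
        have := congrArg (ev i) hh
        rwa [h3, map_zero] at this
      exact NB_of_nonpos hc
    intro A y hy ε hε
    obtain ⟨i, hi⟩ : ∃ i, ‖A (fun _ => y)‖ - ε / (2 * c) ≤ ‖ev i (A (fun _ => y))‖ := by
      by_contra hcon
      push_neg at hcon
      obtain ⟨i0⟩ := ‹Nonempty Λ›
      have hpos : 0 ≤ ‖A (fun _ => y)‖ - ε / (2 * c) := (norm_nonneg _).trans (hcon i0).le
      have := h2 _ _ hpos (fun i => (hcon i).le)
      have : 0 < ε / (2 * c) := by positivity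
      linarith
    have hu : ev i (y - J i (ev i y)) = 0 := by rw [map_sub, h3, sub_self]
    have hball : ∀ (μ : ℂ) (z : X i), ‖μ‖ ≤ 1 → ‖z‖ ≤ 1 →
        ‖μ • (y - J i (ev i y)) + J i z‖ ≤ 1 := by
      intro μ z hμ hz
      refine h2 _ _ (by norm_num) (fun j => ?_)
      rw [map_add, map_smul]
      by_cases hj : j = i
      · subst hj
        rw [hu, h3, smul_zero, zero_add]; exact hz
      · rw [h4 i j z hj, add_zero, map_sub, h4 i j _ hj, sub_zero, norm_smul]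
        have := (h1 j y).trans hy
        nlinarith [norm_nonneg μ, norm_nonneg (ev j y)]
    obtain ⟨x, f, hx, hf, hfx, hlt⟩ := up hc.le (h i) A (ev i) (J i) (y - J i (ev i y)) (h1 i)
      (h3 i) hu hball (ev i y) ((h1 i y).trans hy) (ε := ε / 2) (by linarith)
    refine ⟨x, f, hx, hf, hfx, ?_⟩
    rw [sub_add_cancel] at hlt
    have h5 := mul_le_mul_of_nonneg_left hi hc.le
    have h6 : c * (ε / (2 * c)) = ε / 2 := by field_simp
    rw [mul_sub, h6] at h5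
    linarith

theorem idx_sum (ev : ∀ i, E →L[ℂ] X i) (J : ∀ i, X i →L[ℂ] E)
    (h1 : ∀ i e, ‖ev i e‖ ≤ ‖e‖) (h2 : ∀ e (C : ℝ), 0 ≤ C → (∀ i, ‖ev i e‖ ≤ C) → ‖e‖ ≤ C)
    (h3 : ∀ i z, ev i (J i z) = z) (h4 : ∀ i j z, j ≠ i → ev j (J i z) = 0) (k : ℕ) (hk : 1 ≤ k) :
    idx k E = ⨅ i, idx k (X i) := by
  have : Nontrivial E := by
    obtain ⟨i⟩ := ‹Nonempty Λ›
    obtain ⟨x, hx⟩ := exists_ne (0 : X i)
    refine ⟨⟨J i x, 0, fun hh => hx ?_⟩⟩
    have := congrArg (ev i) hh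
    rwa [h3, map_zero] at this
  refine eq_of_forall_le_iff (fun c => ?_)
  rw [le_idx_iff hk, NB_sum_iff ev J h1 h2 h3 h4,
    le_ciInf_iff ⟨0, by rintro _ ⟨i, rfl⟩; exact idx_nonneg⟩]
  exact forall_congr' (fun i => (le_idx_iff hk c).symm)

end sum

section lp
variable {Λ : Type*} [Nonempty Λ] {X : Λ → Type*} [∀ i, NormedAddCommGroup (X i)]
  [∀ i, NormedSpace ℂ (X i)] [∀ i, Nontrivial (X i)]

theorem idx_lp (k : ℕ) (hk : 1 ≤ k) : idx k (lp X ∞) = ⨅ i, idx k (X i) := by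
  classical
  refine idx_sum (fun i => lp.evalCLM ℂ X ∞ i) (fun i => lp.singleContinuousLinearMap ℂ X ∞ i)
    ?_ ?_ ?_ ?_ k hk
  · intro i e
    exact lp.norm_apply_le_norm (by simp) e i
  · intro e C hC h
    exact lp.norm_le_of_forall_le hC h
  · intro i z
    exact lp.single_apply_self (E := X) ∞ i z
  · intro i j z hj
    exact lp.single_apply_ne (E := X) ∞ i z hj

theorem idx_c0 (C : Submodule ℂ (lp X ∞))
    (hC : ∀ f : lp X ∞, f ∈ C ↔ Tendsto (fun i => ‖f i‖) cofinite (𝓝 0)) (k : ℕ) (hk : 1 ≤ k) :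
    idx k C = ⨅ i, idx k (X i) := by
  classical
  have hmem : ∀ i z, lp.singleContinuousLinearMap ℂ X ∞ i z ∈ C := by
    intro i z
    rw [hC]
    refine tendsto_const_nhds.congr' ?_
    have : {i}ᶜ ∈ (cofinite : Filter Λ) := (Set.finite_singleton i).compl_mem_cofinite
    filter_upwards [this] with j hj
    have hj' : j ≠ i := by simpa using hj
    have : (lp.singleContinuousLinearMap ℂ X ∞ i z) j = 0 := lp.single_apply_ne _ _ _ hj'
    rw [this, norm_zero]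
  refine idx_sum (fun i => (lp.evalCLM ℂ X ∞ i).comp C.subtypeL)
    (fun i => (lp.singleContinuousLinearMap ℂ X ∞ i).codRestrict C (hmem i)) ?_ ?_ ?_ ?_ k hk
  · intro i e
    exact lp.norm_apply_le_norm (by simp) (e : lp X ∞) i
  · intro e D hD h
    exact lp.norm_le_of_forall_le (f := (e : lp X ∞)) hD h
  · intro i z
    exact lp.single_apply_self (E := X) ∞ i z
  · intro i j z hj
    exact lp.single_apply_ne (E := X) ∞ i z hj

end lp

end Pool.Agent.W96.NI
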